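import Mathlib
import Pool.Agent.W922.Dis.Dyn

/-!
# No Borel conjugacy criterion for minimal distal homeomorphisms
-/

set_option autoImplicit false

open Filter Topology Set TopologicalSpace

namespace Pool.Agent.Results.MP_3166b2_lc.NoBorelCriterion

/-- The Hilbert cube `[0,1]^ℕ`, with the product topology. -/
abbrev Q : Type := ℕ → unitInterval

/-- A pair `(K, T)`: a nonempty compact subset `K` of the Hilbert cube and a homeomorphism `T` of
`K` onto itself. -/
structure Sys where
  /-- the space -/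
  K : Set Q
  /-- `K` is compact -/
  isCompact : IsCompact K
  /-- `K` is nonempty -/
  nonempty : K.Nonempty
  /-- the homeomorphism -/
  T : K ≃ₜ K

/-- The code of `(K, T)`: the graph of `T`, a compact subset of `Q × Q`. -/
def Sys.graph (S : Sys) : NonemptyCompacts (Q × Q) where
  carrier := range fun x : S.K => ((x : Q), (S.T x : Q))
  isCompact' := by
    have := isCompact_iff_compactSpace.1 S.isCompact
    exact isCompact_range (continuous_subtype_val.prodMk
      (continuous_subtype_val.comp S.T.continuous))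
  nonempty' := by
    obtain ⟨x, hx⟩ := S.nonempty
    exact ⟨_, ⟨x, hx⟩, rfl⟩

/-- Pairs are identified with their codes: the topology is induced by the Vietoris topology of the
hyperspace of nonempty compact subsets of `Q × Q`. -/
instance : TopologicalSpace Sys := TopologicalSpace.induced Sys.graph inferInstance

/-- Minimality: every two-sided orbit is dense in `K`. -/
def Sys.Minimal (S : Sys) : Prop := ∀ x : S.K, Dense (range fun n : ℤ => (S.T ^ n) x)

/-- The space of minimal codes (with the subspace topology). -/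
abbrev X : Type := {S : Sys // S.Minimal}

/-- Topological distality, for the metric `m` on the Hilbert cube. -/
def Sys.Distal (m : MetricSpace Q) (S : Sys) : Prop :=
  ∀ x y : S.K, x ≠ y → 0 < ⨅ n : ℤ, m.dist ((S.T ^ n) x : Q) ((S.T ^ n) y : Q)

/-- Topological conjugacy. -/
def Conj (S S' : Sys) : Prop := ∃ h : S.K ≃ₜ S'.K, ∀ x, h (S.T x) = S'.T (h x)

/-! ### The proof -/

theorem conj_zpow {A B : Type} [TopologicalSpace A] [TopologicalSpace B] (e : A ≃ₜ B)
    (f : A ≃ₜ A) (n : ℤ) (z : B) :
    ((e.symm.trans (f.trans e)) ^ n) z = e ((f ^ n) (e.symm z)) := by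
  let φ : (A ≃ₜ A) →* (B ≃ₜ B) :=
    { toFun := fun f => e.symm.trans (f.trans e)
      map_one' := by
        ext z
        show e (e.symm z) = z
        exact e.apply_symm_apply z
      map_mul' := by
        intro f g
        ext z
        show e (f (g (e.symm z))) = e (f (e.symm (e (g (e.symm z)))))
        rw [e.symm_apply_apply] }
  have h : φ (f ^ n) = φ f ^ n := map_zpow φ f n
  exact (DFunLike.congr_fun h z).symm

section

variable {ι : W922.Dis.X → Q} (hι : IsEmbedding ι)

/-- the space of the systems -/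
noncomputable def em : W922.Dis.X ≃ₜ range ι := hι.toHomeomorph

theorem em_coe (x : W922.Dis.X) : (em hι x : Q) = ι x := rfl

/-- the systems -/
noncomputable def sy (τ : List ℕ → Bool) (b : ℤ) : Sys where
  K := range ι
  isCompact := isCompact_range hι.continuous
  nonempty := range_nonempty ι
  T := (em hι).symm.trans ((W922.Dis.Fe τ b).trans (em hι))

theorem sy_graph (τ : List ℕ → Bool) (b : ℤ)
    (hc : Continuous fun x => (ι x, ι (W922.Dis.Fm τ b x))) :
    (sy hι τ b).graph = NonemptyCompacts.map (fun x => (ι x, ι (W922.Dis.Fm τ b x))) hc ⊤ := by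
  apply NonemptyCompacts.ext
  rw [NonemptyCompacts.coe_map]
  ext p
  constructor
  · rintro ⟨(x : range ι), rfl⟩
    refine ⟨(em hι).symm x, trivial, ?_⟩
    have h1 : ι ((em hι).symm x) = (x : Q) := by
      rw [← em_coe hι, (em hι).apply_symm_apply]
    show (ι ((em hι).symm x), ι (W922.Dis.Fm τ b ((em hι).symm x))) = _
    rw [h1]
    rfl
  · rintro ⟨x, -, rfl⟩
    refine ⟨em hι x, ?_⟩
    show ((em hι x : Q), (em hι (W922.Dis.Fm τ b ((em hι).symm (em hι x))) : Q)) = _
    rw [(em hι).symm_apply_apply]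
    rfl

theorem sy_cont (b : ℤ) : Continuous fun τ => sy hι τ b := by
  rw [continuous_induced_rng]
  have h1 : Continuous (Function.uncurry fun (τ : List ℕ → Bool) (x : W922.Dis.X) =>
      (ι x, ι (W922.Dis.Fm τ b x))) :=
    (hι.continuous.comp continuous_snd).prodMk (hι.continuous.comp (W922.Dis.Fm_cont2 b))
  have h2 := Continuous.nonemptyCompacts_map' (α := List ℕ → Bool)
    (f := fun _ => (⊤ : NonemptyCompacts W922.Dis.X)) continuous_const h1
  convert h2 using 2 with τ
  exact sy_graph hι τ b _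

theorem sy_min (τ : List ℕ → Bool) (b : ℤ) : (sy hι τ b).Minimal := by
  intro x
  have h1 := (W922.Dis.Fe_dense τ b ((em hι).symm x))
  have h2 : (range fun n : ℤ => ((sy hι τ b).T ^ n) x) =
      em hι '' (range fun n : ℤ => (W922.Dis.Fe τ b ^ n) ((em hι).symm x)) := by
    rw [← range_comp]
    congr 1
    funext n
    exact conj_zpow (em hι) _ n x
  rw [h2]
  exact (em hι).surjective.denseRange.dense_image (em hι).continuous h1

theorem dist_cont (m : MetricSpace Q)
    (hm : m.toUniformSpace.toTopologicalSpace = Pi.topologicalSpace) :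
    Continuous fun p : Q × Q => m.dist p.1 p.2 := by
  have key : ∀ t : TopologicalSpace Q, m.toUniformSpace.toTopologicalSpace = t →
      @Continuous (Q × Q) ℝ (@instTopologicalSpaceProd Q Q t t) _ fun p => m.dist p.1 p.2 := by
    rintro _ rfl
    exact continuous_dist
  exact key _ hm

theorem em_zpow (τ : List ℕ → Bool) (b : ℤ) (n : ℤ) (z : range ι) :
    ((((em hι).symm.trans ((W922.Dis.Fe τ b).trans (em hι))) ^ n) z : Q) =
      ι ((W922.Dis.Fe τ b ^ n) ((em hι).symm z)) := by
  rw [conj_zpow, em_coe]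

theorem dist_aux (m : MetricSpace Q)
    (hm : m.toUniformSpace.toTopologicalSpace = Pi.topologicalSpace) (τ : List ℕ → Bool) (b : ℤ)
    (hι : IsEmbedding ι) (u v : W922.Dis.X) (h1 : u ≠ v) :
    ∃ δ : ℝ, 0 < δ ∧ ∀ n : ℤ, δ ≤ m.dist (ι ((W922.Dis.Fe τ b ^ n) u))
      (ι ((W922.Dis.Fe τ b ^ n) v)) := by
  obtain ⟨d, c, hc, h2⟩ := W922.Dis.Fe_sep τ b h1
  let C : Set (W922.Dis.X × W922.Dis.X) :=
    {p | W922.Dis.prH p.1 d - W922.Dis.prH p.2 d = c}
  have hC : IsCompact C := by
    refine IsClosed.isCompact (isClosed_eq ?_ continuous_const)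
    exact ((W922.Dis.prH_cont d).comp continuous_fst).sub
      ((W922.Dis.prH_cont d).comp continuous_snd)
  have hw : ∀ n : ℤ, ((W922.Dis.Fe τ b ^ n) u, (W922.Dis.Fe τ b ^ n) v) ∈ C := h2
  have hne : C.Nonempty := ⟨_, hw 0⟩
  have hf : Continuous fun p : W922.Dis.X × W922.Dis.X => m.dist (ι p.1) (ι p.2) :=
    (dist_cont m hm).comp ((hι.continuous.comp continuous_fst).prodMk
      (hι.continuous.comp continuous_snd))
  obtain ⟨p, hp, hmin⟩ := hC.exists_isMinOn hne hf.continuousOn
  have hpos : 0 < m.dist (ι p.1) (ι p.2) := by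
    rcases (@dist_nonneg Q m.toPseudoMetricSpace (ι p.1) (ι p.2)).eq_or_lt with h3 | h3
    · exfalso
      have h4 : ι p.1 = ι p.2 := m.eq_of_dist_eq_zero h3.symm
      have h5 : p.1 = p.2 := hι.injective h4
      apply hc
      have h6 : W922.Dis.prH p.1 d - W922.Dis.prH p.2 d = c := hp
      rw [h5, sub_self] at h6
      exact h6.symm
    · exact h3
  exact ⟨m.dist (ι p.1) (ι p.2), hpos, fun n => isMinOn_iff.1 hmin _ (hw n)⟩

theorem sy_dist (m : MetricSpace Q)
    (hm : m.toUniformSpace.toTopologicalSpace = Pi.topologicalSpace) (τ : List ℕ → Bool) (b : ℤ) :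
    (sy hι τ b).Distal m := by
  intro (x : range ι) (y : range ι) hxy
  have h1 : (em hι).symm x ≠ (em hι).symm y := fun h => hxy ((em hι).symm.injective h)
  obtain ⟨δ, hδ, h2⟩ := dist_aux m hm τ b hι _ _ h1
  refine lt_of_lt_of_le hδ (le_ciInf fun n => ?_)
  have h3 := h2 n
  rw [← em_zpow hι, ← em_zpow hι] at h3
  exact h3

theorem sy_conj (τ : List ℕ → Bool) : Conj (sy hι τ 1) (sy hι τ 0) ↔
    ∃ h : W922.Dis.X ≃ₜ W922.Dis.X, ∀ x, h (W922.Dis.Fm τ 1 x) = W922.Dis.Fm τ 0 (h x) := by
  constructor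
  · rintro ⟨h, hh⟩
    refine ⟨(em hι).trans (h.trans (em hι).symm), fun x => ?_⟩
    have h1 := hh (em hι x)
    have h2 : (sy hι τ 1).T (em hι x) = em hι (W922.Dis.Fm τ 1 x) := by
      show em hι (W922.Dis.Fm τ 1 ((em hι).symm (em hι x))) = _
      rw [(em hι).symm_apply_apply]
    rw [h2] at h1
    show (em hι).symm (h (em hι (W922.Dis.Fm τ 1 x))) =
      W922.Dis.Fm τ 0 ((em hι).symm (h (em hι x)))
    rw [h1]
    show (em hι).symm (em hι (W922.Dis.Fm τ 0 ((em hι).symm (h (em hι x))))) = _
    rw [(em hι).symm_apply_apply]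
  · rintro ⟨h, hh⟩
    refine ⟨(em hι).symm.trans (h.trans (em hι)), fun x => ?_⟩
    show em hι (h ((em hι).symm (em hι (W922.Dis.Fm τ 1 ((em hι).symm x))))) =
      em hι (W922.Dis.Fm τ 0 ((em hι).symm (em hι (h ((em hι).symm x)))))
    rw [(em hι).symm_apply_apply, (em hι).symm_apply_apply, hh]

end

/-- For no compatible metric `m` on the Hilbert cube is there a Borel subset `B` of `X × X` whose
restriction to the (topologically) distal codes is topological conjugacy. -/
theorem result (m : MetricSpace Q)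
    (hm : m.toUniformSpace.toTopologicalSpace = Pi.topologicalSpace) :
    ¬ ∃ B : Set (X × X), @MeasurableSet (X × X) (borel (X × X)) B ∧
      ∀ S S' : X, S.1.Distal m → S'.1.Distal m → ((S, S') ∈ B ↔ Conj S.1 S'.1) := by
  rintro ⟨B, hB, h⟩
  have hmet : MetrizableSpace W922.Dis.X := metrizableSpace_of_t3_secondCountable _
  obtain ⟨ι, hι⟩ : ∃ ι : W922.Dis.X → Q, IsEmbedding ι := by
    let _ : MetricSpace W922.Dis.X := metrizableSpaceMetric _
    exact Metric.PiNatEmbed.exists_embedding_to_hilbert_cube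
  let Φ : (List ℕ → Bool) → X × X := fun τ =>
    (⟨sy hι τ 1, sy_min hι τ 1⟩, ⟨sy hι τ 0, sy_min hι τ 0⟩)
  have hΦ : Continuous Φ :=
    (Continuous.subtype_mk (sy_cont hι 1) _).prodMk (Continuous.subtype_mk (sy_cont hι 0) _)
  have h1 : @MeasurableSet (List ℕ → Bool) (borel (List ℕ → Bool)) (Φ ⁻¹' B) := by
    let _ : MeasurableSpace (List ℕ → Bool) := borel _
    have _ : BorelSpace (List ℕ → Bool) := ⟨rfl⟩
    let _ : MeasurableSpace (X × X) := borel _
    have _ : BorelSpace (X × X) := ⟨rfl⟩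
    exact hΦ.measurable hB
  refine W922.Dis.not_borel ?_
  convert h1 using 1
  ext τ
  show _ ↔ Φ τ ∈ B
  rw [h _ _ (sy_dist hι m hm τ 1) (sy_dist hι m hm τ 0), sy_conj]
  rfl

end Pool.Agent.Results.MP_3166b2_lc.NoBorelCriterion
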